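import Pool.Agent.H8.BIG.Targets
import Pool.Agent.H69.HIT.SPD

/-! # Rational maps of large topological degree: specialization with the ring of definition -/

set_option autoImplicit false

open MvPolynomial
open Pool.Agent.H12.ZD (pmap v O Res DenseOrbit NoInv)
open Pool.Agent.H18.HIT Pool.Agent.H8.BIG Pool.Agent.H69.HIT

namespace Pool.Agent.H38.BIG

theorem pf_SP2 (hKER : T_KER) : T_SP2 := by
  classical
  intro N k _ _ _ f b e D Φ θ ρ Δ R hC hρ hΔ hb
  obtain ⟨U, V, hUV⟩ := hC.sep
  have hinv := hC.inv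
  choose Q hQ using hinv
  obtain ⟨Q0, hQ0⟩ := hC.prim
  -- all polynomials
  set PP : Set (Polynomial (Po N k)) := {Polynomial.C b, Φ, Polynomial.C θ, Polynomial.C ρ,
    Polynomial.C Δ, U, V, Q0} ∪ (Set.range (fun i => Polynomial.C (f i)) ∪ (Set.range R ∪
      Set.range Q)) with hPP
  have hPPf : PP.Finite := by
    refine Set.Finite.union (by simp) (Set.Finite.union (Set.finite_range _)
      (Set.Finite.union (Set.finite_range _) (Set.finite_range _)))
  have hSf : (⋃ P ∈ PP, cf2 P).Finite := hPPf.biUnion fun P _ => cf2_finite P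
  obtain ⟨mb, hmb⟩ : ∃ m, coeff m b ≠ 0 := by
    by_contra h
    push Not at h
    exact hb (MvPolynomial.ext _ _ fun m => by rw [h m, coeff_zero])
  obtain ⟨mρ, hmρ⟩ : ∃ m, coeff m ρ ≠ 0 := by
    by_contra h
    push Not at h
    exact hρ (MvPolynomial.ext _ _ fun m => by rw [h m, coeff_zero])
  obtain ⟨mΔ, hmΔ⟩ : ∃ m, coeff m Δ ≠ 0 := by
    by_contra h
    push Not at h
    exact hΔ (MvPolynomial.ext _ _ fun m => by rw [h m, coeff_zero])
  obtain ⟨ι, A, φ, hSA, hE, -, hι, -⟩ := Pool.Agent.H14.ZA.pf_SPC k hSf.toFinset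
    {coeff mb b, coeff mρ ρ, coeff mΔ Δ} (by
      intro e he
      simp only [Finset.mem_insert, Finset.mem_singleton] at he
      rcases he with rfl | rfl | rfl
      · exact hmb
      · exact hmρ
      · exact hmΔ)
  have hA : ∀ P ∈ PP, ∀ n m, coeff m (P.coeff n) ∈ A := by
    intro P hP
    refine mem_of_cf2 A P fun c hc => ?_
    refine hSA c ?_
    rw [Set.Finite.mem_toFinset]
    exact Set.mem_biUnion hP hc
  have hliftC : ∀ q : Po N k, Polynomial.C q ∈ PP → ∃ qA : Po N A, map A.subtype qA = q := by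
    intro q hq
    refine lift_mv A q fun m => ?_
    have h1 := hA _ hq 0 m
    rwa [Polynomial.coeff_C_zero] at h1
  have hlift : ∀ P ∈ PP, ∃ PA : Polynomial (Po N A), PA.map (map A.subtype) = P :=
    fun P hP => lift_poly A P (hA P hP)
  obtain ⟨bA, hbA⟩ := hliftC b (Or.inl (by simp))
  obtain ⟨θA, hθA⟩ := hliftC θ (Or.inl (by simp))
  obtain ⟨ρA, hρA⟩ := hliftC ρ (Or.inl (by simp))
  obtain ⟨ΔA, hΔA⟩ := hliftC Δ (Or.inl (by simp))
  obtain ⟨ΦA, hΦA⟩ := hlift Φ (Or.inl (by simp))
  obtain ⟨UA, hUA⟩ := hlift U (Or.inl (by simp))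
  obtain ⟨VA, hVA⟩ := hlift V (Or.inl (by simp))
  obtain ⟨Q0A, hQ0A⟩ := hlift Q0 (Or.inl (by simp))
  have hfex : ∀ i, ∃ qA : Po N A, map A.subtype qA = f i := fun i =>
    hliftC (f i) (Or.inr (Or.inl ⟨i, rfl⟩))
  choose fA hfA using hfex
  have hRex : ∀ i, ∃ PA : Polynomial (Po N A), PA.map (map A.subtype) = R i := fun i =>
    hlift (R i) (Or.inr (Or.inr (Or.inl ⟨i, rfl⟩)))
  choose RA hRA using hRex
  have hQex : ∀ i, ∃ PA : Polynomial (Po N A), PA.map (map A.subtype) = Q i := fun i =>
    hlift (Q i) (Or.inr (Or.inr (Or.inr ⟨i, rfl⟩)))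
  choose QA hQA using hQex
  -- the maps
  have hμ : Function.Injective (map A.subtype : Po N A →+* Po N k) :=
    map_injective _ A.subtype_injective
  have hM : Function.Injective (Polynomial.mapRingHom (map A.subtype : Po N A →+* Po N k)) := by
    rw [Polynomial.coe_mapRingHom]
    exact Polynomial.map_injective _ hμ
  have hMk : ∀ c : A, Polynomial.mapRingHom (map A.subtype : Po N A →+* Po N k)
      (algebraMap A (Polynomial (Po N A)) c) = algebraMap k (Polynomial (Po N k)) (A.subtype c) := by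
    intro c
    have h1 : algebraMap A (Polynomial (Po N A)) c = Polynomial.C (C c) := rfl
    have h2 : algebraMap k (Polynomial (Po N k)) (A.subtype c) =
      Polynomial.C (C (A.subtype c)) := rfl
    rw [h1, h2, Polynomial.coe_mapRingHom, Polynomial.map_C, map_C]
  have hMQ : ∀ c : A, Polynomial.mapRingHom (map φ : Po N A →+* Po N Qb)
      (algebraMap A (Polynomial (Po N A)) c) = algebraMap Qb (Polynomial (Po N Qb)) (φ c) := by
    intro c
    have h1 : algebraMap A (Polynomial (Po N A)) c = Polynomial.C (C c) := rfl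
    have h2 : algebraMap Qb (Polynomial (Po N Qb)) (φ c) = Polynomial.C (C (φ c)) := rfl
    rw [h1, h2, Polynomial.coe_mapRingHom, Polynomial.map_C, map_C]
  -- the identities over `A`
  have hmonA : ΦA.Monic := by
    refine Polynomial.monic_of_injective hμ ?_
    rw [hΦA]
    exact hC.monic
  have hnatA : ΦA.natDegree = e := by
    rw [← Polynomial.natDegree_map_eq_of_injective hμ ΦA, hΦA]
    exact hC.nat
  have hsepA : UA * ΦA + VA * Polynomial.derivative ΦA = Polynomial.C ρA := by
    apply hM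
    rw [map_add, map_mul, map_mul, Polynomial.coe_mapRingHom, ← Polynomial.derivative_map,
      Polynomial.map_C, hUA, hΦA, hVA, hρA]
    exact hUV
  have hinvA : ∀ i, hev RA (Polynomial.C ΔA) D (fA i) - Polynomial.C (ΔA ^ D * X i) =
      ΦA * QA i := by
    intro i
    apply hM
    rw [map_sub, map_hev' A.subtype _ hMk]
    simp only [Polynomial.coe_mapRingHom, Polynomial.map_C, hRA, hΔA, hfA, map_mul, map_pow,
      map_X, Polynomial.map_mul, hΦA, hQA, Polynomial.map_pow]
    have h1 := hQ i
    simp only [map_mul, map_pow] at h1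
    exact h1
  have hprimA : hev RA (Polynomial.C ΔA) D θA - Polynomial.C (ΔA ^ D) * Polynomial.X =
      ΦA * Q0A := by
    apply hM
    rw [map_sub, map_hev' A.subtype _ hMk]
    simp only [Polynomial.coe_mapRingHom, Polynomial.map_C, hRA, hΔA, hθA, map_mul, map_pow,
      Polynomial.map_mul, hΦA, hQ0A, Polynomial.map_X, Polynomial.map_pow]
    have h1 := hQ0
    simp only [map_pow] at h1
    exact h1
  -- non-vanishing
  have hne : ∀ (q : Po N k) (qA : Po N A) (m : Fin N →₀ ℕ), map A.subtype qA = q →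
      coeff m q ∈ ({coeff mb b, coeff mρ ρ, coeff mΔ Δ} : Finset k) → map φ qA ≠ 0 := by
    intro q qA m h1 h2 h3
    have h4 : ((coeff m qA : A) : k) = coeff m q := by
      rw [← h1, coeff_map]
      rfl
    have h5 := hE ((coeff m qA : A) : k) (coeff m qA).2 (by rw [h4]; exact h2)
    have h6 := congrArg (coeff m) h3
    rw [coeff_map, coeff_zero] at h6
    exact h5 h6
  have hbne : map φ bA ≠ 0 := hne b bA mb hbA (by simp)
  have hρne : map φ ρA ≠ 0 := hne ρ ρA mρ hρA (by simp)
  have hΔne : map φ ΔA ≠ 0 := hne Δ ΔA mΔ hΔA (by simp)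
  have hdegf : ∀ i, (map φ (fA i)).totalDegree ≤ (f i).totalDegree := by
    intro i
    rw [← hfA i, deg_mp_inj _ A.subtype_injective]
    exact deg_mp_le φ _
  have hdegg : deg (mp φ fA) ≤ deg f := deg_le fun i =>
    (hdegf i).trans (totalDegree_le_deg f i)
  have hfmp : mp A.subtype fA = f := funext hfA
  refine ⟨A, φ, fA, map φ bA, hfmp, hbne, ⟨ΦA.map (map φ), map φ θA, map φ ρA, map φ ΔA,
    fun i => (RA i).map (map φ), ⟨hmonA.map _, ?_, hdegg.trans hC.degG, ?_, ?_, ?_, ?_⟩,
      hρne, hΔne⟩, ?_⟩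
  · rw [hmonA.natDegree_map, hnatA]
  · refine (deg_mp_le φ θA).trans ?_
    rw [← deg_mp_inj _ A.subtype_injective θA, hθA]
    exact hC.degθ
  · refine ⟨UA.map (map φ), VA.map (map φ), ?_⟩
    have h1 := congrArg (Polynomial.map (map φ : Po N A →+* Po N Qb)) hsepA
    rw [Polynomial.map_add, Polynomial.map_mul, Polynomial.map_mul, Polynomial.map_C,
      ← Polynomial.derivative_map] at h1
    exact h1
  · intro i
    refine ⟨(QA i).map (map φ), ?_⟩
    have h1 := congrArg (Polynomial.mapRingHom (map φ : Po N A →+* Po N Qb)) (hinvA i)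
    rw [map_sub, map_hev' φ _ hMQ] at h1
    simp only [Polynomial.coe_mapRingHom, Polynomial.map_C, map_mul, map_pow,
      map_X, Polynomial.map_mul, Polynomial.map_pow] at h1
    simp only [map_mul, map_pow]
    exact h1
  · refine ⟨Q0A.map (map φ), ?_⟩
    have h1 := congrArg (Polynomial.mapRingHom (map φ : Po N A →+* Po N Qb)) hprimA
    rw [map_sub, map_hev' φ _ hMQ] at h1
    simp only [Polynomial.coe_mapRingHom, Polynomial.map_C, map_mul, map_pow,
      Polynomial.map_X, Polynomial.map_mul, Polynomial.map_pow] at h1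
    simp only [map_pow]
    exact h1
  · intro x hx hdx
    set yA : Fin N → A := fun i => ⟨ι (x i), (hι (x i)).1⟩ with hyA
    have hφy : (fun i => φ (yA i)) = x := funext fun i => (hι (x i)).2
    refine ⟨fun i => (yA i : k), fun n h => ?_, ?_⟩
    · apply hx n
      have h2 : (pmap f)^[n] (fun i => (yA i : k)) =
          fun i => (((pmap fA)^[n] yA i : A) : k) := by
        rw [← hfmp]
        exact (map_iter A.subtype fA yA n).symm
      have h3 : (pmap (mp φ fA))^[n] x = fun i => φ ((pmap fA)^[n] yA i) := by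
        rw [map_iter φ fA yA n, hφy]
      rw [h2, ← hbA] at h
      have h4 := map_eval' A.subtype ((pmap fA)^[n] yA) bA
      have h5 : eval ((pmap fA)^[n] yA) bA = 0 := by
        apply A.subtype_injective
        rw [h4, map_zero]
        exact h
      rw [h3, ← map_eval' φ, h5, map_zero]
    · have h1 := dense_lift hKER A φ fA yA (by rw [hφy]; exact hdx)
      rw [hfmp] at h1
      exact h1

end Pool.Agent.H38.BIG
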